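import Pool.Agent.helper90.KS.Spec

/-!
# MP_26dbae_co, module CL: a clique of centres
-/

set_option autoImplicit false

open scoped BigOperators

namespace Pool.Agent.KS

open Pool.Agent.helper23.TH

noncomputable section

open Classical

theorem CL_co_symm {V X : Type} {p q : V → X} {u w : V} (h : Co p q u w) : Co p q w u := by
  rcases h with h | h
  · exact Or.inl h.symm
  · exact Or.inr h.symm

theorem CL_cd_symm {V : Type} [Fintype V] (A : V → V → Prop) (x y : V) :
    cd A x y = cd A y x := by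
  unfold cd
  congr 1
  ext m
  simp only [Finset.mem_filter, Finset.mem_univ, true_and]
  exact and_comm

theorem CL_adj {V X : Type} {A : V → V → Prop} {p q : V → X} (h : PG A p q) {u w : V}
    (hA : A u w) : ¬ Co p q u w := by
  intro hc
  rcases hc with hc | hc
  · exact h.ne1 u w hA hc
  · exact h.ne2 u w hA hc

theorem CL_core {V X : Type} [Fintype V] (A : V → V → Prop) (p q : V → X) (C : ℕ) {s t : ℕ}
    (ht : 2 ≤ t) (hPG : PG A p q)
    (hN6 : ∀ v u, Lg A C v u → ¬ Co p q v u)
    (hN7 : ∀ m u u', A m u → A m u' → u ≠ u' → ¬ Co p q u u')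
    (u : Fin s → V) (v : Fin t → V) (hL : ∀ j i, Lg A C (v j) (u i))
    (hv : ∀ j j', j ≠ j' → ¬ Co p q (v j) (v j'))
    (hG : ∀ j j', j ≠ j' → Gd A p q C (v j) (v j') u)
    (hcd : ∀ j j', j ≠ j' → cd A (v j) (v j') < C) : Emb A p q s t := by
  have hm : ∀ i : Fin s, ∀ j : Fin t, ∃ m, A (v j) m ∧ A (u i) m := by
    intro i j
    have h1 := (hL j i).2.1
    unfold cd at h1
    obtain ⟨m, hm⟩ := Finset.card_pos.1 h1
    exact ⟨m, (Finset.mem_filter.1 hm).2⟩
  choose m hmv hmu using hm
  have hoth : ∀ j : Fin t, ∃ j' : Fin t, j ≠ j' := by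
    intro j
    by_cases h0 : j = ⟨0, by omega⟩
    · refine ⟨⟨1, by omega⟩, ?_⟩
      rw [h0]
      intro h
      have := congrArg Fin.val h
      simp at this
    · exact ⟨⟨0, by omega⟩, h0⟩
  refine ⟨u, v, m, ?_, ?_, ?_, ?_, ?_, ?_, ?_⟩
  · intro i j
    exact ⟨hmu i j, hPG.symm _ _ (hmv i j)⟩
  · intro i i' hii hc
    obtain ⟨j', hj'⟩ := hoth ⟨0, by omega⟩
    exact (hG _ _ hj').1 i i' hii (Or.inl hc)
  · exact hv
  · intro i j hc
    exact hN6 _ _ (hL j i) (CL_co_symm hc)
  · intro i i' j hc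
    by_cases hii : i = i'
    · subst hii
      exact CL_adj hPG (hmu i j) hc
    · obtain ⟨j', hj'⟩ := hoth j
      exact (hG _ _ hj').1 i' i (Ne.symm hii)
        (Or.inr (Or.inl ⟨m i' j, hmv i' j, hmu i' j, CL_co_symm hc⟩))
  · intro i j j' hc
    by_cases hjj : j = j'
    · subst hjj
      exact CL_adj hPG (hmv i j) hc
    · exact (hG j' j (Ne.symm hjj)).2 i
        (Or.inr (Or.inl ⟨m i j', hmv i j', hmu i j', CL_co_symm hc⟩))
  · intro i i' j j' hne hc
    by_cases hii : i = i'
    · subst hii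
      have hjj : j ≠ j' := fun h => hne (by rw [h])
      have heq : m i j = m i j' := by
        by_contra hne2
        exact hN7 _ _ _ (hmu i j) (hmu i j') hne2 hc
      exact (hG j j' hjj).2 i
        (Or.inl ⟨hcd j j' hjj, m i j, hmv i j, by rw [heq]; exact hmv i j', hmu i j⟩)
    · by_cases hjj : j = j'
      · subst hjj
        have heq : m i j = m i' j := by
          by_contra hne2
          exact hN7 _ _ _ (hmv i j) (hmv i' j) hne2 hc
        obtain ⟨j', hj'⟩ := hoth j
        exact (hG _ _ hj').1 i i' hii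
          (Or.inr (Or.inr (Or.inr (Or.inl ⟨m i j, hmv i j, hmu i j, by rw [heq]; exact hmu i' j⟩))))
      · exact (hG j j' hjj).1 i i' hii
          (Or.inr (Or.inr (Or.inr (Or.inr (Or.inr
            ⟨m i j, m i' j', hmv i j, hmu i j, hmv i' j', hmu i' j', hc⟩)))))

theorem CL (hRA : RA_stmt) (hHE : HE_stmt) (hNL : NL_stmt) : CL_stmt := by
  intro s t hs ht
  obtain ⟨R0, hR0⟩ := hRA (s + t) t
  refine ⟨max R0 2, le_max_right _ _, ?_⟩
  intro V X _ A p q hPG hex
  obtain ⟨u, f, hL, hG⟩ := hex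
  have hinj : Function.Injective f := by
    intro a b hab
    by_contra hne
    exact (hG a b hne).1 (Or.inl (by rw [hab]))
  have hcard : R0 ≤ (Finset.univ.image f).card := by
    rw [Finset.card_image_of_injective _ hinj, Finset.card_univ, Fintype.card_fin]
    exact le_max_left _ _
  have hNL' := hNL V X A p q (Fintype.card V) (C0 s t) hPG
    (fun v => by unfold deg; exact Finset.card_le_univ _)
  obtain ⟨-, -, -, -, -, hN6, hN7⟩ := hNL'
  have hsymm : ∀ x y : V, C0 s t ≤ cd A x y → C0 s t ≤ cd A y x := by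
    intro x y h
    rw [CL_cd_symm]
    exact h
  rcases hR0 V (Finset.univ.image f) (fun x y => C0 s t ≤ cd A x y) hsymm hcard with h | h
  · obtain ⟨h, hhinj, hhQ, hhg⟩ := h
    have hex : ∀ a, ∃ b, f b = h a := by
      intro a
      have := hhQ a
      rw [Finset.mem_image] at this
      obtain ⟨b, -, hb⟩ := this
      exact ⟨b, hb⟩
    choose φ hφ using hex
    refine hHE s t V X A p q hPG ⟨h, ?_⟩
    intro a b hab
    refine ⟨?_, hhg a b hab⟩
    rw [← hφ a, ← hφ b]
    refine (hG (φ a) (φ b) ?_).1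
    intro h2
    apply hab
    apply hhinj
    rw [← hφ a, ← hφ b, h2]
  · obtain ⟨h, hhinj, hhQ, hhg⟩ := h
    have hex : ∀ a, ∃ b, f b = h a := by
      intro a
      have := hhQ a
      rw [Finset.mem_image] at this
      obtain ⟨b, -, hb⟩ := this
      exact ⟨b, hb⟩
    choose φ hφ using hex
    have hφne : ∀ a b, a ≠ b → φ a ≠ φ b := by
      intro a b hab h2
      apply hab
      apply hhinj
      rw [← hφ a, ← hφ b, h2]
    refine CL_core A p q (C0 s t) ht hPG (fun v w hvw => (hN6 v w hvw).2) hN7 u h ?_ ?_ ?_ ?_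
    · intro j i
      rw [← hφ j]
      exact hL _ _
    · intro j j' hjj
      rw [← hφ j, ← hφ j']
      exact (hG _ _ (hφne j j' hjj)).1
    · intro j j' hjj
      rw [← hφ j, ← hφ j']
      exact (hG _ _ (hφne j j' hjj)).2
    · intro j j' hjj
      exact not_le.1 (hhg j j' hjj)

end

end Pool.Agent.KS
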